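import Pool.Agent.Lib.MP_6adcb2_nt.Main

/-! A harmonic number which is deficient or odd is bounded in terms of the number of its primes. -/

namespace Pool.Agent.Results.MP_6adcb2_nt.BoundedPrimes

theorem result (n k : ℕ) (hn : 0 < n)
    (hH : (∑ d ∈ n.divisors, d) ∣ n * n.divisors.card)
    (hd : ∑ d ∈ n.divisors, d < 2 * n ∨ Odd n) (hk : n.primeFactors.card ≤ k) :
    n < 2 ^ (8 * (k + 1) ^ 2 * 4 ^ k) :=
  Pool.Agent.Lib.MP_6adcb2_nt.main hn hH hd hk

end Pool.Agent.Results.MP_6adcb2_nt.BoundedPrimes
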