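import Pool.Agent.Lib.MP_6adcb2_nt.OMain

/-! A deficient harmonic number above one has at least four distinct prime factors. -/

namespace Pool.Agent.Results.MP_6adcb2_nt.FourPrimes

theorem result (n : ℕ) (hn : 1 < n)
    (hH : (∑ d ∈ n.divisors, d) ∣ n * n.divisors.card)
    (hd : ∑ d ∈ n.divisors, d < 2 * n) : 4 ≤ n.primeFactors.card :=
  Pool.Agent.Lib.MP_6adcb2_nt.O.four hn hH (Or.inl hd)

end Pool.Agent.Results.MP_6adcb2_nt.FourPrimes
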